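import Pool.Agent.Helper20.APC.Main

open Pool.Agent.Helper65.LinSpace Pool.Agent.Helper20.APD

namespace Pool.Agent.Results.MP_c578c8_lc.AuxiliaryPushdown

/-- **Recursion in logarithmic space with few different calls is in linear space, but does not even
compute all of linear space on average.** Let `c` be a number. Consider deterministic auxiliary
pushdown machines (recursive procedures) which read an input word of length `n`, an advice word and
a guessed word of length at most `c n`. States (the positions of the heads and the contents of the
auxiliary work tapes), addresses and the words on the store have at most `s` bits; the running time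
and the height of the store are not bounded. Only the number `x` of different calls is counted, that
is the number of different pairs (state, top symbol) directly after a symbol has been put on the
store; the number of all pairs (state, top symbol) may be `2 ^ h`. The bounds (`PDM.Within`) are
`x s l^2 ≤ C (n + 1)^(3/2)` and `s (h + 1) l ≤ C (n + 1)^(1/2)` for `l = h + ⌊log₂ n⌋ + 1`. Every
language which is accepted by such a machine is in `DSPACE(n)`. On the other hand there are a
language `L` in `DSPACE(n)` and masks `s n` of length `n` such that `L` consists of the words `w`
whose inner product with `s |w|` is odd, and for every machine and every `C` there is a `c'` such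
that for `M = L` and for `M` the complement of `L`, for all `n` and all advice words `α` (written in
front of the guess), the machine is correct within these bounds on at most
`2^n / 2 + c' (min (|α|, n - |α|) + 1) 2^((n + |α|) / 2)` words of length `n`. In particular linear
space is not contained in `AuxDPDA(c log n)` for `c < 1/2`. -/
theorem result (c : ℕ) :
    (∀ (A : PDM) (L : Set (List Bool)) (C : ℝ), (∀ w y t, A.AcceptsAt w y t → w ∈ L) →
      (∀ w ∈ L, ∃ y : List Bool, y.length ≤ c * w.length ∧ A.Within C w y) → DLINSPACE L) ∧
    ∃ (L : Set (List Bool)) (s : ℕ → List Bool), DLINSPACE L ∧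
      (∀ n, (s n).length = n) ∧
      (∀ w, w ∈ L ↔ Odd ((List.zipWith and (s w.length) w).count true)) ∧
      ∀ (A : PDM) (C : ℝ), ∃ c' : ℝ, ∀ (n : ℕ) (α : List Bool),
        ∀ M, M = L ∨ M = Lᶜ →
          ({w : List Bool | w.length = n ∧
            (∀ v t, A.AcceptsAt w (α ++ v) t → w ∈ M) ∧
            (w ∈ M → ∃ v : List Bool, v.length ≤ c * n ∧ A.Within C w (α ++ v))}.ncard : ℝ) ≤
          2 ^ n / 2 +
            c' * ((min α.length (n - α.length) : ℕ) + 1) * 2 ^ (((n : ℝ) + α.length) / 2) :=
  ⟨Pool.Agent.Helper20.APC.apc_lin Pool.Agent.Helper28.Few.sim c,
    Pool.Agent.Helper20.APC.apc_main Pool.Agent.Helper28.Few.sim c⟩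

end Pool.Agent.Results.MP_c578c8_lc.AuxiliaryPushdown
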