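import Pool.Agent.RamseyH5.Chrom

set_option autoImplicit false

/-!
# Ramsey numbers of `H5` against graphs of bounded chromatic number

For every `k` there is a constant `C` such that `r(H5, H) ≤ C m ^ ((5 - 3 ^ (-k)) / 4)` for every
`(k + 2)`-colourable graph `H` with `m` edges and no isolated vertices.
-/

namespace Pool.Agent.Helper81.Parked.BoundedChromatic

open Finset Pool.Agent.RamseyH5

open scoped Classical in
theorem degree_sum {V : Type} [Fintype V] (H : SimpleGraph V) :
    ∑ v, (univ.filter (fun x => H.Adj v x)).card = 2 * Nat.card H.edgeSet := by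
  have h1 := H.sum_degrees_eq_twice_card_edges
  rw [Nat.card_eq_fintype_card, ← SimpleGraph.edgeFinset_card, ← h1]
  refine sum_congr rfl fun v _ => ?_
  rw [← SimpleGraph.card_neighborFinset_eq_degree]
  congr 1
  ext x
  simp

open scoped Classical in
theorem card_le_degree_sum {V : Type} [Fintype V] (H : SimpleGraph V)
    (h : ∀ v, ∃ w, H.Adj v w) :
    Fintype.card V ≤ ∑ v, (univ.filter (fun x => H.Adj v x)).card := by
  calc Fintype.card V = ∑ _v : V, 1 := by simp
    _ ≤ _ := sum_le_sum fun v _ => by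
        obtain ⟨w, hw⟩ := h v
        exact card_pos.2 ⟨w, mem_filter.2 ⟨mem_univ w, hw⟩⟩

/-- Ramsey numbers of `H5` against graphs of bounded chromatic number. -/
theorem result (k : ℕ) :
    ∃ C : ℕ, ∀ (V : Type) [Fintype V] (H : SimpleGraph V),
      (∀ v : V, ∃ w : V, H.Adj v w) → H.Colorable (k + 2) →
      ∀ N : ℕ, C * Nat.card H.edgeSet ^ (5 * 3 ^ k - 1) ≤ N ^ (4 * 3 ^ k) →
        ∀ K : SimpleGraph (Fin N), H5.IsContained K ∨ H.IsContained Kᶜ := by
  classical
  obtain ⟨C, hC, hSK⟩ := SK_all k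
  refine ⟨C * 2 ^ (5 * 3 ^ k - 1), ?_⟩
  intro V _ H hiso hcol N hN K
  by_cases hK : H5.IsContained K
  · exact Or.inl hK
  refine Or.inr ?_
  have hsum := degree_sum H
  have hVm := card_le_degree_sum H hiso
  set m := Nat.card H.edgeSet with hm
  rw [hsum] at hVm
  rcases Nat.eq_zero_or_pos m with hm0 | hm0
  · have hV : IsEmpty V := by
      rw [← Fintype.card_eq_zero_iff]
      omega
    exact ⟨⟨⟨fun v => (hV.false v).elim, fun {a} => (hV.false a).elim⟩,
      fun a => (hV.false a).elim⟩⟩
  have h3 : 0 < 3 ^ k := by positivity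
  have e1 : 5 * (3 ^ k - 1) + 4 = 5 * 3 ^ k - 1 := by omega
  have e2 : 4 * (3 ^ k - 1) + 4 = 4 * 3 ^ k := by omega
  have key := hSK V (Fin N) H K hK hcol (2 * m) (by omega) hVm hsum.le univ (by
    rw [e1, e2, card_univ, Fintype.card_fin, mul_pow, ← mul_assoc]
    exact hN)
  exact contained_of_emb H K key

end Pool.Agent.Helper81.Parked.BoundedChromatic
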