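import Pool.Agent.RamseyH5.SparseMain

set_option autoImplicit false

/-!
# Ramsey numbers of `H5` against sparse nearly bipartite graphs

If the vertex set of `H` is covered by a set `S` of at most `s` vertices, an independent set `A`
of any size, and a set `B` of any size inducing a `D`-degenerate graph, and `H` has `m` edges and
no isolated vertices, then `r(H5, H) = O(m + s ^ (5 / 2) + D ^ 4)`.
-/

namespace Pool.Agent.Helper81.Parked.SparseNearlyBipartite

open Finset Pool.Agent.RamseyH5

open scoped Classical in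
theorem degree_sum {V : Type} [Fintype V] (H : SimpleGraph V) :
    ∑ v, (univ.filter (fun x => H.Adj v x)).card = 2 * Nat.card H.edgeSet := by
  have h1 := H.sum_degrees_eq_twice_card_edges
  rw [Nat.card_eq_fintype_card, ← SimpleGraph.edgeFinset_card, ← h1]
  refine sum_congr rfl fun v _ => ?_
  rw [← SimpleGraph.card_neighborFinset_eq_degree]
  congr 1
  ext x
  simp

open scoped Classical in
theorem card_le_degree_sum {V : Type} [Fintype V] (H : SimpleGraph V)
    (h : ∀ v, ∃ w, H.Adj v w) :
    Fintype.card V ≤ ∑ v, (univ.filter (fun x => H.Adj v x)).card := by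
  calc Fintype.card V = ∑ _v : V, 1 := by simp
    _ ≤ _ := sum_le_sum fun v _ => by
        obtain ⟨w, hw⟩ := h v
        exact card_pos.2 ⟨w, mem_filter.2 ⟨mem_univ w, hw⟩⟩

open scoped Classical in
/-- Ramsey numbers of `H5` against sparse nearly bipartite graphs. -/
theorem result :
    ∃ C : ℕ, ∀ (V : Type) [Fintype V] (H : SimpleGraph V) (S A B : Finset V) (s D : ℕ),
      (∀ v : V, ∃ w : V, H.Adj v w) →
      (∀ v : V, v ∈ S ∨ v ∈ A ∨ v ∈ B) → S.card ≤ s →
      (∀ x ∈ A, ∀ y ∈ A, ¬ H.Adj x y) →
      (∀ T ⊆ B, T.Nonempty → ∃ v ∈ T, (T.filter (fun u => H.Adj v u)).card ≤ D) →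
      ∀ N : ℕ, C * Nat.card H.edgeSet ≤ N → C * s ^ 5 ≤ N ^ 2 → C * D ^ 4 ≤ N →
        ∀ K : SimpleGraph (Fin N), H5.IsContained K ∨ H.IsContained Kᶜ := by
  refine ⟨37778931862957161709568, ?_⟩
  intro V _ H S A B s D hiso hcov hS hAI hBD N hN1 hN2 hN3 K
  by_cases hK : H5.IsContained K
  · exact Or.inl hK
  refine Or.inr ?_
  have hQ : (univ : Finset (Fin N)).card = N := by simp
  have hsum := degree_sum H
  have hVm := card_le_degree_sum H hiso
  set m := Nat.card H.edgeSet with hm
  rw [hsum] at hVm
  rcases Nat.eq_zero_or_pos m with hm0 | hm0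
  · have hV : IsEmpty V := by
      rw [← Fintype.card_eq_zero_iff]
      omega
    exact ⟨⟨⟨fun v => (hV.false v).elim, fun {a} => (hV.false a).elim⟩,
      fun a => (hV.false a).elim⟩⟩
  have hNpos : 0 < N := by omega
  have : Nonempty (Fin N) := ⟨⟨0, hNpos⟩⟩
  set M := N / 256 with hM
  have hM1 : 256 * M ≤ N := by omega
  have hM2 : N ≤ 512 * M := by omega
  have hMN : N ^ 2 ≤ 262144 * M ^ 2 := by
    calc N ^ 2 ≤ (512 * M) ^ 2 := Nat.pow_le_pow_left hM2 2
      _ = _ := by ring
  have hdat : Dat H S A B (max s 1) (max D 1) M (2 * m) := by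
    refine ⟨by omega, by omega, by omega, hAI, Dg.mono (D := D) hBD subset_rfl (le_max_left _ _),
      fun v => ?_, hVm, hsum.le, by omega, ?_, ?_⟩
    · simp only [mem_union]
      exact hcov v
    · rcases Nat.eq_zero_or_pos D with h0 | h0
      · have h1 : max D 1 = 1 := by omega
        rw [h1]
        omega
      · have h1 : max D 1 = D := by omega
        rw [h1]
        omega
    · rcases Nat.eq_zero_or_pos s with h0 | h0
      · have h1 : max s 1 = 1 := by omega
        have h2 : N ≤ N ^ 2 := Nat.le_self_pow (by norm_num) N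
        rw [h1]
        omega
      · have h1 : max s 1 = s := by omega
        rw [h1]
        omega
  obtain ⟨Z, hZ⟩ := sparse_core hK hdat univ (by rw [hQ]; exact hM1)
  exact contained_of_emb H K hZ

end Pool.Agent.Helper81.Parked.SparseNearlyBipartite
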