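import Pool.Agent.Helper31.SusD.Final

open Pool.Agent.Helper65.LinSpace Pool.Agent.Helper28.Ram Pool.Agent.Helper31.SusD
open Pool.Agent.Helper81.Sus2 (Decomp)

namespace Pool.Agent.Results.MP_c578c8_lc.SustainedDeterministic

/-- **A space hierarchy theorem for sustained space.** Let `c` be a number. Consider deterministic
machines (`DBM`) of any running time which read an input word of length `n`, an advice word and a word
of length `c n` whose letters are chosen in turn by two players. States and names of registers are
words of length at most `s`, registers contain words of length at most `a`. The registers are changed
by messages; a message is a state which changes all registers at the same time. Only messages are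
counted, other steps are free (up to `2 ^ h` per message; without bound if `s < h`). A description of
the memory at a time is a word `d` from which a decompressor (`Decomp`), which works in space `a` and
has random access to the input word, the advice word and `d`, computes the content of every register.
A computation is good (`DBM.Within`) if there are at most `x` messages in every stretch of the
computation during which the memory has no description of at most `c n` bits. The bounds are, for
`l = h + ⌊log₂ n⌋ + 1`: `x (s + l) l^2 ≤ C (n + 1)^(3/2)`, `(s + l) (h + 1) l ≤ C (n + 1)^(1/2)` and
`a l^2 ≤ C (n + 1)`; for states of `O(log n)` bits this means `x = C n^(3/2) / log^3 n` and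
`a = C n / log^2 n`, and the running time is not bounded at all. Every language which is accepted by
such machines is in `DSPACE(n)`. On the other hand there are a language `L` in `DSPACE(n)` and masks
`s n` of length `n` such that `L` consists of the words `w` whose inner product with `s |w|` is odd,
and for every machine, every decompressor and every `C` there is a `c'` such that for `M = L` and for
`M` the complement of `L`, for all `n` and all advice words `α`, the machine is correct within these
bounds on at most `2^n / 2 + c' (min (|α|, n - |α|) + 1) 2^((n + |α|) / 2)` words of length `n`. In
particular, a machine which decides `M` passes, on all but `c' 2^(n / 2)` of the words of length `n` in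
`M`, through a stretch with more than `C n^(3/2) / log^3 n` messages during which, all the time, the
memory has no description of `c n` bits. Without descriptions (only one stretch, from the start to the
accepting time) this is a lower bound for the number of the changes of registers of random access
machines. -/
theorem result (c : ℕ) :
    (∀ (A : DBM) (Δ : Decomp) (L : Set (List Bool)) (C : ℝ),
      (∀ w, Alt true (c * w.length) (fun v => ∃ r, A.AcceptsAt w v r) → w ∈ L) →
      (∀ w ∈ L, Alt true (c * w.length) (A.Within Δ c C w)) → DLINSPACE L) ∧
    ∃ (L : Set (List Bool)) (s : ℕ → List Bool), DLINSPACE L ∧
      (∀ n, (s n).length = n) ∧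
      (∀ w, w ∈ L ↔ Odd ((List.zipWith and (s w.length) w).count true)) ∧
      ∀ (A : DBM) (Δ : Decomp) (C : ℝ), ∃ c' : ℝ, ∀ (n : ℕ) (α : List Bool),
        ∀ M, M = L ∨ M = Lᶜ →
          ({w : List Bool | w.length = n ∧
            (Alt true (c * n) (fun v => ∃ r, A.AcceptsAt w (α ++ v) r) → w ∈ M) ∧
            (w ∈ M → Alt true (c * n) fun v => A.Within Δ c C w (α ++ v))}.ncard : ℝ) ≤
          2 ^ n / 2 +
            c' * ((min α.length (n - α.length) : ℕ) + 1) * 2 ^ (((n : ℝ) + α.length) / 2) :=
  sustained_det c

end Pool.Agent.Results.MP_c578c8_lc.SustainedDeterministic
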