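import Pool.Agent.Helper81.Sus2.Final

open Pool.Agent.Helper65.LinSpace Pool.Agent.Helper28.Ram Pool.Agent.Helper81.Sus2

namespace Pool.Agent.Results.MP_c578c8_lc.SustainedNondeterministic

/-- **Nondeterministic machines with a compressible memory.** Let `c` be a number. Consider
nondeterministic machines which read an input word of length `n`, an advice word and a word of length
`c n` whose letters are chosen in turn by two players. States and names of registers are words of
length at most `s`, registers contain words of length at most `a`. The registers are changed by
messages; a message is a state which changes all registers at the same time. Only messages are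
counted, other steps are free (up to `2 ^ h` per message), and so is the total number of guessed
letters. A computation is good if it can be divided into at most `2 ^ k` parts (any polynomial number,
for `k = O(log n)`) such that a part has at most `x` messages and at most `c n` guessed letters, and such
that between two parts the memory has a description of at most `z` bits, from which a decompressor
(an arbitrary machine with random access to the input, the advice and the description, whose states
have at most `a` bits) computes contents of registers. What a description says must be right, and it
must be sufficient for the next part: a register which is read in a part, or which is described at the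
end of a part, is described at the start of this part, or read-only, or it was reset in this part. The
bounds (`NBM.Within`) are, for `l = h + ⌊log₂ n⌋ + 1`: `x (s + l) l^2 ≤ C (n + 1)^(3/2)`,
`(s + l) (h + 1) l ≤ C (n + 1)^(1/2)`, `a l^2 ≤ C (n + 1)`, `(k + 1) (z + s + l) ≤ c (n + 1)`; for states of
`O(log n)` bits and polynomial time this means `x = C n^(3/2) / log^3 n` messages in a part and
descriptions of `z ≈ c n / k` bits. Every language which is accepted by such machines is in
`DSPACE(n)`. On the other hand there are a language `L` in `DSPACE(n)` and masks `s n` of length `n`
such that `L` consists of the words `w` whose inner product with `s |w|` is odd, and for every machine,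
every decompressor and every `C` there is a `c'` such that for `M = L` and for `M` the complement of `L`,
for all `n` and all advice words `α`, the machine is correct within these bounds on at most
`2^n / 2 + c' (min (|α|, n - |α|) + 1) 2^((n + |α|) / 2)` words of length `n`. In particular, if a
machine with `s = O(log n)` decides `M` in time less than `2 ^ k`, `k = O(log n)`, then for every
decompressor, on all but `c' 2^(n / 2)` of the words of length `n` in `M`, every accepting computation
has a stretch with more than `C n^(3/2) / log^3 n` messages or more than `c n` guessed letters during
which there is, all the time, no description of the contents of all registers with `c n / (4 k)`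
bits. -/
theorem result (c : ℕ) :
    (∀ (A : NBM) (E : Decomp) (L : Set (List Bool)) (C : ℝ),
      (∀ w, Alt true (c * w.length) (fun v => ∃ g r, A.AcceptsAt w v g r) → w ∈ L) →
      (∀ w ∈ L, Alt true (c * w.length) (A.Within E c C w)) → DLINSPACE L) ∧
    ∃ (L : Set (List Bool)) (s : ℕ → List Bool), DLINSPACE L ∧
      (∀ n, (s n).length = n) ∧
      (∀ w, w ∈ L ↔ Odd ((List.zipWith and (s w.length) w).count true)) ∧
      ∀ (A : NBM) (E : Decomp) (C : ℝ), ∃ c' : ℝ, ∀ (n : ℕ) (α : List Bool),
        ∀ M, M = L ∨ M = Lᶜ →
          ({w : List Bool | w.length = n ∧
            (Alt true (c * n) (fun v => ∃ g r, A.AcceptsAt w (α ++ v) g r) → w ∈ M) ∧
            (w ∈ M → Alt true (c * n) fun v => A.Within E c C w (α ++ v))}.ncard : ℝ) ≤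
          2 ^ n / 2 +
            c' * ((min α.length (n - α.length) : ℕ) + 1) * 2 ^ (((n : ℝ) + α.length) / 2) :=
  sustained c

end Pool.Agent.Results.MP_c578c8_lc.SustainedNondeterministic
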